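import Pool.Agent.H854R3.CR.PIFinite

/-!
Critical rings with a polynomial identity are finite.

Outline. A critical ring `R` is finitely generated and has a non-zero element `h` lying in all
non-zero ideals (and so in all powers of `R`). There is a bound on the length of lists of proper
subrings each of which is a complement to the intersection of the later ones. If `R` satisfies a
polynomial identity, then every non-nilpotent element of `R` survives in a matrix ring over a
field, and then lies outside a maximal left ideal of finite index; the bound on the lists gives
that the intersection of the maximal left ideals of finite index is a nil ideal of finite index,
and the absence of nil ideals in prime rings with a polynomial identity makes it nilpotent. So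
`R` is finitely generated as a group, and the element `h` makes it finite.
-/

set_option autoImplicit false

namespace Pool.Agent.Results.MP_70de85_al.CriticalPIFinite

open Pool.Agent.H854R3.CR

/-- Every critical ring satisfying a multilinear polynomial identity with a coefficient 1 is
finite. -/
theorem _root_.Pool.Agent.Results.MP_70de85_al.CriticalPIFinite.result
    (R : Type) [NonUnitalRing R] (hc : Critical R) (h : IsPI R) : Finite R :=
  critical_PI_finite hc h

end Pool.Agent.Results.MP_70de85_al.CriticalPIFinite
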