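import Pool.Agent.H854R3.CR.ExistsMain

/-!
There exists an infinite critical associative ring.

Outline. Let `G` be the free ring without one on `x, y` and `F` its reduction modulo two. By the
Golod-Shafarevich inequality there is an ideal `I` of `F`, generated by few homogeneous elements
of high degree, and a linear functional `l` on `I` vanishing on `F I + I F`, such that
(1) for all `a, b` in `G` of order at least two there are `W, W'` in `G` with
`x - W(x + a, y + b)` and `y - W'(x + a, y + b)` of high order and with reduction in the kernel
of `l` on `I` (formal inversion, truncated in high degree), and
(2) `l` takes the value one on elements of `I` of arbitrarily high order.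
Let `R` be the quotient of `G` by the ideal of all `f` with reduction in `I` whose part of
degree at most two is congruent modulo four to `l(f) * 2 (x y - y x)`. Then `h = 2 [x, y]` is a
non-zero element of all powers of `R`, twice a product of three elements is zero, and by (1) all
pairs `x + a, y + b` with `a, b` in `R ^ 2` generate `R`. Hence `2 [u, v]` is zero unless `u, v`
generate `R`, finite quotients of `R` are nilpotent and so annihilate `h`. A subdirectly
irreducible quotient of `R` in which `h` survives is infinite, and the identity
`2 (x y - y x) = 0` holds in all its proper factors but not in the quotient itself.
-/

set_option autoImplicit false

namespace Pool.Agent.Results.MP_70de85_al.InfiniteCriticalRing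

open Pool.Agent.H854R3.CR

/-- There exists an infinite critical associative ring. -/
theorem _root_.Pool.Agent.Results.MP_70de85_al.InfiniteCriticalRing.result :
    ∃ (R : Type) (_ : NonUnitalRing R), Infinite R ∧ Critical R :=
  exists_infinite_critical

end Pool.Agent.Results.MP_70de85_al.InfiniteCriticalRing
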