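import Pool.Agent.H854R3.CR.Main
import Pool.Agent.H92R3.CR.Lin

/-!
Infinite critical rings of prime characteristic are division rings.

Outline. In prime characteristic the identity separating a critical ring `R` from its proper
factors makes all proper factors of `R` rings with a polynomial identity. If `R` is infinite, then
it satisfies no polynomial identity itself, so `R` is simple, and an analysis of a faithful simple
module (using that lists of proper subrings, each a complement to the intersection of the later
ones, have bounded length) shows that `R` has no left ideals besides zero and `R`.
-/

set_option autoImplicit false

namespace Pool.Agent.Results.MP_70de85_al.PrimeCharDivision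

open Pool.Agent.H854R3.CR

/-- Every infinite critical ring of prime characteristic is a division ring. -/
theorem _root_.Pool.Agent.Results.MP_70de85_al.PrimeCharDivision.result
    (R : Type) [NonUnitalRing R] (hc : Critical R) (hinf : Infinite R)
    (p : ℕ) (hp : p.Prime) (hpR : ∀ x : R, p • x = 0) : DivRing R :=
  critical_char_p Pool.Agent.H92R3.CR.taskLin hc hinf p hp hpR

end Pool.Agent.Results.MP_70de85_al.PrimeCharDivision
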